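import Mathlib

/-!
# MP_dec21a: a finitely additive form of the Phillips-Sobczyk lemma (proof of Whitley)

`q A n`, `A` a set of natural numbers: finitely additive in `A`, bounded, tends to `0` in `n`; then
`q F n` is not the indicator function of `F` for all finite sets `F`.
-/

set_option autoImplicit false

namespace Pool.Agent.Helper44.CW

open Set Filter Topology

/-- the codes of the initial segments of `a` -/
def seg (a : ℕ → Bool) : Set ℕ :=
  Set.range fun k : ℕ => Encodable.encode (List.ofFn fun j : Fin k => a j)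

theorem seg_inj (a : ℕ → Bool) :
    Function.Injective fun k : ℕ => Encodable.encode (List.ofFn fun j : Fin k => a j) := by
  intro k l h
  have h1 := Encodable.encode_injective h
  have h2 := congrArg List.length h1
  simpa using h2

theorem seg_infinite (a : ℕ → Bool) : (seg a).Infinite :=
  Set.infinite_range_of_injective (seg_inj a)

theorem seg_inter {a b : ℕ → Bool} (h : a ≠ b) : (seg a ∩ seg b).Finite := by
  obtain ⟨m, hm⟩ := Function.ne_iff.1 h
  apply Set.Finite.subset (Set.Finite.image
    (fun k : ℕ => Encodable.encode (List.ofFn fun j : Fin k => a j)) (Set.finite_Iic m))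
  rintro x ⟨⟨k, rfl⟩, ⟨l, hl⟩⟩
  refine ⟨k, ?_, rfl⟩
  have h1 := Encodable.encode_injective hl
  have h2 : l = k := by simpa using congrArg List.length h1
  subst h2
  by_contra hk
  have hk' : m < l := by simpa using hk
  have h3 := congrFun (List.ofFn_injective h1) ⟨m, hk'⟩
  exact hm h3.symm

/-- The lemma of Phillips and Sobczyk. -/
theorem phillips (q : Set ℕ → ℕ → ℝ) (C : ℝ)
    (hadd : ∀ A B : Set ℕ, Disjoint A B → ∀ n, q (A ∪ B) n = q A n + q B n)
    (hC : ∀ A n, |q A n| ≤ C) (h0 : ∀ A, Tendsto (q A) atTop (𝓝 0))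
    (hfin : ∀ F : Set ℕ, F.Finite → ∀ n, q F n = F.indicator 1 n) : False := by
  classical
  -- `r A n = 1_A n - q A n`
  set r : Set ℕ → ℕ → ℝ := fun A n => A.indicator 1 n - q A n with hr
  have hradd : ∀ A B : Set ℕ, Disjoint A B → ∀ n, r (A ∪ B) n = r A n + r B n := by
    intro A B hAB n
    simp only [hr]
    rw [hadd A B hAB n, Set.indicator_union_of_disjoint hAB]
    ring
  have hrfin : ∀ F : Set ℕ, F.Finite → ∀ n, r F n = 0 := by
    intro F hF n
    simp only [hr]
    rw [hfin F hF n, sub_self]
  have hrle : ∀ A n, r A n ≤ 1 + C := by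
    intro A n
    have h1 := (abs_le.1 (hC A n)).1
    have h2 : A.indicator (1 : ℕ → ℝ) n ≤ 1 := by
      by_cases h : n ∈ A
      · simp [h]
      · simp [h]
    simp only [hr]
    linarith
  have hbig : ∀ a : ℕ → Bool, ∃ n, 1 / 2 ≤ r (seg a) n := by
    intro a
    have h1 : ∀ᶠ n in atTop, q (seg a) n < 1 / 2 :=
      (h0 (seg a)).eventually (gt_mem_nhds (by norm_num))
    obtain ⟨N, hN⟩ := eventually_atTop.1 h1
    obtain ⟨n, hn, hn'⟩ := (seg_infinite a).exists_gt N
    refine ⟨n, ?_⟩
    have h2 := hN n hn'.le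
    simp only [hr]
    rw [Set.indicator_of_mem hn]
    simp only [Pi.one_apply]
    linarith
  choose N hN using hbig
  -- a value which is taken infinitely often
  obtain ⟨n, hn⟩ : ∃ n, (N ⁻¹' {n}).Infinite := by
    by_contra hcon
    push Not at hcon
    have h1 : (Set.univ : Set (ℕ → Bool)) = ⋃ n, N ⁻¹' {n} := by
      ext a
      simp
    have h2 : (Set.univ : Set (ℕ → Bool)).Countable := by
      rw [h1]
      exact Set.countable_iUnion fun n => (hcon n).countable
    have h3 : Countable (ℕ → Bool) := Set.countable_univ_iff.1 h2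
    have h4 : Countable (Set ℕ) := by
      apply Function.Injective.countable (f := fun (s : Set ℕ) (n : ℕ) => decide (n ∈ s))
      intro s t hst
      ext n
      have := congrFun hst n
      simpa using this
    obtain ⟨f, hf⟩ := h4.exists_injective_nat
    exact Function.cantor_injective f hf
  obtain ⟨m, hm⟩ := exists_nat_gt (2 * (1 + C))
  obtain ⟨I, hI, hIm⟩ := hn.exists_subset_card_eq m
  -- the finite set of all common elements
  set D : Set ℕ := ⋃ a ∈ I, ⋃ b ∈ I, ⋃ (_ : a ≠ b), seg a ∩ seg b with hD
  have hDfin : D.Finite := by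
    refine Set.Finite.biUnion (Finset.finite_toSet I) fun a _ => ?_
    refine Set.Finite.biUnion (Finset.finite_toSet I) fun b _ => ?_
    exact Set.finite_iUnion fun h => seg_inter h
  have hB : ∀ a, r (seg a) n = r (seg a \ D) n := by
    intro a
    have h1 : seg a = (seg a \ D) ∪ (seg a ∩ D) := (Set.sdiff_union_inter _ _).symm
    have h2 : Disjoint (seg a \ D) (seg a ∩ D) := Set.disjoint_sdiff_inter
    conv_lhs => rw [h1]
    rw [hradd _ _ h2, hrfin _ (hDfin.inter_of_right _), add_zero]
  have hsum : ∀ J : Finset (ℕ → Bool), J ⊆ I →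
      r (⋃ a ∈ J, seg a \ D) n = ∑ a ∈ J, r (seg a \ D) n := by
    intro J
    induction J using Finset.induction_on with
    | empty =>
      intro _
      simp only [Finset.notMem_empty, Set.iUnion_of_empty, Set.iUnion_empty, Finset.sum_empty]
      exact hrfin _ Set.finite_empty n
    | insert b J hb ih =>
      intro hJ
      have hbI : b ∈ I := hJ (Finset.mem_insert_self _ _)
      have hJI : J ⊆ I := fun a ha => hJ (Finset.mem_insert_of_mem ha)
      rw [Finset.sum_insert hb, Finset.set_biUnion_insert, hradd, ih hJI]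
      rw [Set.disjoint_iUnion_right]
      intro a
      rw [Set.disjoint_iUnion_right]
      intro ha
      rw [Set.disjoint_left]
      rintro x ⟨hx1, hx2⟩ ⟨hx3, -⟩
      apply hx2
      have hab : b ≠ a := fun h => hb (h ▸ ha)
      simp only [hD, Set.mem_iUnion]
      exact ⟨b, hbI, a, hJI ha, hab, hx1, hx3⟩
  have h1 := hsum I (Finset.Subset.refl _)
  have h2 : ∀ a ∈ I, (1 / 2 : ℝ) ≤ r (seg a \ D) n := by
    intro a ha
    have h3 := hN a
    have h4 : N a = n := hI ha
    rw [h4, hB] at h3
    exact h3
  have h3 : (m : ℝ) * (1 / 2) ≤ ∑ a ∈ I, r (seg a \ D) n := by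
    have := Finset.card_nsmul_le_sum I (fun a => r (seg a \ D) n) (1 / 2) h2
    rwa [hIm, nsmul_eq_mul] at this
  have h4 := hrle (⋃ a ∈ I, seg a \ D) n
  linarith

end Pool.Agent.Helper44.CW
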