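import Mathlib
import Pool.Agent.Helper44.CW.Phillips

/-!
# MP_dec21a: the Banach space of bounded measurable functions has no complemented copy of `c₀`
-/

set_option autoImplicit false

namespace Pool.Agent.Helper44.CW

open Set Filter Topology MeasureTheory

open scoped ENNReal

/-- bounded functions with the supremum norm -/
abbrev LI (G : Type) : Type := lp (fun _ : G => ℝ) ⊤

/-- The Banach space of bounded measurable functions with the supremum norm. -/
def BM (G : Type) [MeasurableSpace G] : Submodule ℝ (LI G) where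
  carrier := {f | Measurable (f : G → ℝ)}
  add_mem' := by
    intro a b ha hb
    exact Measurable.add ha hb
  zero_mem' := measurable_const
  smul_mem' := by
    intro c a ha
    exact Measurable.const_smul ha c

variable {G : Type} [MeasurableSpace G]

theorem BM_closed : IsClosed (BM G : Set (LI G)) := by
  rw [← isSeqClosed_iff_isClosed]
  intro u f hu hf
  have hu' : ∀ n, Measurable (u n : G → ℝ) := hu
  change Measurable (f : G → ℝ)
  refine measurable_of_tendsto_metrizable hu' ?_
  rw [tendsto_pi_nhds]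
  intro s
  rw [tendsto_iff_dist_tendsto_zero]
  have h1 : Tendsto (fun n => dist (u n) f) atTop (𝓝 0) := tendsto_iff_dist_tendsto_zero.1 hf
  refine squeeze_zero (fun n => dist_nonneg) (fun n => ?_) h1
  rw [dist_eq_norm, dist_eq_norm]
  exact lp.norm_apply_le_norm (by simp) (u n - f) s

instance : CompleteSpace (BM G) := BM_closed.completeSpace_coe

/-- the value at a point -/
def ev (x : BM G) (s : G) : ℝ := (x.1 : G → ℝ) s

theorem ev_meas (x : BM G) : Measurable (ev x) := x.2

theorem abs_ev_le (x : BM G) (s : G) : |ev x s| ≤ ‖x‖ :=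
  lp.norm_apply_le_norm (by simp) x.1 s

theorem ev_add (x y : BM G) (s : G) : ev (x + y) s = ev x s + ev y s := rfl

theorem ev_sub (x y : BM G) (s : G) : ev (x - y) s = ev x s - ev y s := rfl

theorem ev_smul (c : ℝ) (x : BM G) (s : G) : ev (c • x) s = c * ev x s := rfl

theorem ev_ext {x y : BM G} (h : ∀ s, ev x s = ev y s) : x = y := by
  apply Subtype.ext
  apply lp.ext
  funext s
  exact h s

/-- a bounded measurable function as an element of the space -/
def mkB (f : G → ℝ) (hf : Measurable f) (C : ℝ) (hC : ∀ s, |f s| ≤ C) : BM G :=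
  ⟨⟨f, memℓp_infty ⟨C, by
    rintro _ ⟨s, rfl⟩
    exact hC s⟩⟩, hf⟩

theorem ev_mkB (f : G → ℝ) (hf : Measurable f) (C : ℝ) (hC : ∀ s, |f s| ≤ C) (s : G) :
    ev (mkB f hf C hC) s = f s := rfl

theorem norm_le_of_ev {x : BM G} {C : ℝ} (h0 : 0 ≤ C) (h : ∀ s, |ev x s| ≤ C) : ‖x‖ ≤ C :=
  lp.norm_le_of_forall_le h0 h

/-! ### `c₀` -/

/-- finitely supported elements of `c₀` -/
noncomputable def fin0 (F : Set ℕ) (hF : F.Finite) (c : ℕ → ℝ) :
    ZeroAtInftyContinuousMap ℕ ℝ where
  toFun := F.indicator c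
  continuous_toFun := continuous_of_discreteTopology
  zero_at_infty' := by
    rw [Filter.cocompact_eq_cofinite]
    refine tendsto_const_nhds.congr' ?_
    filter_upwards [hF.compl_mem_cofinite] with n hn
    rw [Set.indicator_of_notMem hn]

theorem fin0_apply (F : Set ℕ) (hF : F.Finite) (c : ℕ → ℝ) (n : ℕ) :
    fin0 F hF c n = F.indicator c n := rfl

theorem norm_c0_le {x : ZeroAtInftyContinuousMap ℕ ℝ} {C : ℝ} (h0 : 0 ≤ C) (h : ∀ n, |x n| ≤ C) :
    ‖x‖ ≤ C := by
  rw [← ZeroAtInftyContinuousMap.norm_toBCF_eq_norm]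
  exact (BoundedContinuousFunction.norm_le h0).2 h

theorem abs_c0_le (x : ZeroAtInftyContinuousMap ℕ ℝ) (n : ℕ) : |x n| ≤ ‖x‖ := by
  rw [← ZeroAtInftyContinuousMap.norm_toBCF_eq_norm]
  exact x.toBCF.norm_coe_le_norm n

theorem c0_tendsto (x : ZeroAtInftyContinuousMap ℕ ℝ) : Tendsto (fun n => x n) atTop (𝓝 0) := by
  have h := x.zero_at_infty'
  rw [Filter.cocompact_eq_cofinite, Nat.cofinite_eq_atTop] at h
  exact h

section

variable (T : ZeroAtInftyContinuousMap ℕ ℝ →L[ℝ] BM G)

/-- the image of the `j`-th unit vector at the point `s` -/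
noncomputable def tj (j : ℕ) (s : G) : ℝ := ev (T (fin0 {j} (Set.finite_singleton j) 1)) s

theorem fin0_sum (F : Finset ℕ) (c : ℕ → ℝ) :
    fin0 (F : Set ℕ) F.finite_toSet c =
      ∑ j ∈ F, c j • fin0 {j} (Set.finite_singleton j) 1 := by
  ext n
  have h1 : (∑ j ∈ F, c j • fin0 {j} (Set.finite_singleton j) 1 :
      ZeroAtInftyContinuousMap ℕ ℝ) n = ∑ j ∈ F, c j * fin0 {j} (Set.finite_singleton j) 1 n := by
    induction F using Finset.induction_on with
    | empty => simp
    | insert a F ha ih =>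
      rw [Finset.sum_insert ha, Finset.sum_insert ha, ZeroAtInftyContinuousMap.add_apply, ih]
      rfl
  rw [h1, fin0_apply]
  simp only [fin0_apply]
  by_cases hn : n ∈ F
  · rw [Finset.sum_eq_single n]
    · simp [hn]
    · intro b _ hb
      rw [Set.indicator_of_notMem (by simpa using hb.symm), mul_zero]
    · intro h
      exact absurd hn h
  · rw [Set.indicator_of_notMem (by simpa using hn), Finset.sum_eq_zero]
    intro b hb
    rw [Set.indicator_of_notMem, mul_zero]
    rintro h
    apply hn
    have : n = b := h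
    rwa [this]

theorem T_fin0 (F : Finset ℕ) (c : ℕ → ℝ) (s : G) :
    ev (T (fin0 (F : Set ℕ) F.finite_toSet c)) s = ∑ j ∈ F, c j * tj T j s := by
  rw [fin0_sum, map_sum]
  have h1 : ∀ (J : Finset ℕ) (y : ℕ → BM G), ev (∑ j ∈ J, y j) s = ∑ j ∈ J, ev (y j) s := by
    intro J y
    induction J using Finset.induction_on with
    | empty => rfl
    | insert a F ha ih => rw [Finset.sum_insert ha, Finset.sum_insert ha, ev_add, ih]
  rw [h1]
  refine Finset.sum_congr rfl fun j _ => ?_
  rw [map_smul, ev_smul]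
  rfl

theorem sum_abs_tj (F : Finset ℕ) (s : G) : ∑ j ∈ F, |tj T j s| ≤ ‖T‖ := by
  have h1 := T_fin0 T F (fun j => SignType.sign (tj T j s)) s
  have h2 : ∑ j ∈ F, ((SignType.sign (tj T j s) : SignType) : ℝ) * tj T j s =
      ∑ j ∈ F, |tj T j s| := by
    refine Finset.sum_congr rfl fun j _ => ?_
    exact sign_mul_self _
  rw [← h2, ← h1]
  refine (le_abs_self _).trans ((abs_ev_le _ s).trans ((T.le_opNorm _).trans ?_))
  have h3 : ‖fin0 (F : Set ℕ) F.finite_toSet
      (fun j => ((SignType.sign (tj T j s) : SignType) : ℝ))‖ ≤ 1 := by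
    apply norm_c0_le zero_le_one
    intro n
    rw [fin0_apply]
    by_cases hn : n ∈ (F : Set ℕ)
    · rw [Set.indicator_of_mem hn]
      rcases lt_trichotomy (tj T n s) 0 with h | h | h
      · simp [sign_neg h]
      · simp [h]
      · simp [sign_pos h]
    · rw [Set.indicator_of_notMem hn]
      simp
  calc ‖T‖ * _ ≤ ‖T‖ * 1 := mul_le_mul_of_nonneg_left h3 T.opNorm_nonneg
    _ = ‖T‖ := mul_one _

theorem summable_tj (s : G) : Summable fun j => |tj T j s| :=
  summable_of_sum_le (fun _ => abs_nonneg _) (fun F => sum_abs_tj T F s)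

theorem summable_ind (A : Set ℕ) (s : G) : Summable (A.indicator fun j => tj T j s) :=
  (Summable.of_abs (summable_tj T s)).indicator A

theorem abs_tsum_ind (A : Set ℕ) (s : G) : |∑' j, A.indicator (fun j => tj T j s) j| ≤ ‖T‖ := by
  have h1 : Summable fun j => ‖A.indicator (fun j => tj T j s) j‖ := (summable_ind T A s).abs
  refine (norm_tsum_le_tsum_norm h1).trans ?_
  refine Summable.tsum_le_of_sum_le h1 fun F => ?_
  refine (Finset.sum_le_sum fun j _ => ?_).trans (sum_abs_tj T F s)
  rw [Real.norm_eq_abs]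
  by_cases hj : j ∈ A
  · rw [Set.indicator_of_mem hj]
  · rw [Set.indicator_of_notMem hj, abs_zero]
    exact abs_nonneg _

theorem meas_tsum_ind (A : Set ℕ) :
    Measurable fun s : G => ∑' j, A.indicator (fun j => tj T j s) j := by
  refine measurable_of_tendsto_metrizable (f := fun (n : ℕ) (s : G) =>
    ∑ j ∈ Finset.range n, A.indicator (fun j => tj T j s) j) ?_ ?_
  · intro n
    refine Finset.measurable_sum _ fun j _ => ?_
    by_cases hj : j ∈ A
    · simp only [Set.indicator_of_mem hj]
      exact ev_meas _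
    · simp only [Set.indicator_of_notMem hj]
      exact measurable_const
  · rw [tendsto_pi_nhds]
    intro s
    exact (summable_ind T A s).hasSum.tendsto_sum_nat

/-- the image of the indicator function of `A` under the extension of `T` to the bounded sequences -/
noncomputable def xA (A : Set ℕ) : BM G :=
  mkB (fun s => ∑' j, A.indicator (fun j => tj T j s) j) (meas_tsum_ind T A) ‖T‖
    (abs_tsum_ind T A)

theorem xA_norm (A : Set ℕ) : ‖xA T A‖ ≤ ‖T‖ :=
  norm_le_of_ev T.opNorm_nonneg (abs_tsum_ind T A)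

theorem xA_add {A B : Set ℕ} (h : Disjoint A B) : xA T (A ∪ B) = xA T A + xA T B := by
  apply ev_ext
  intro s
  rw [ev_add]
  change ∑' j, (A ∪ B).indicator (fun j => tj T j s) j =
    ∑' j, A.indicator (fun j => tj T j s) j + ∑' j, B.indicator (fun j => tj T j s) j
  rw [← (summable_ind T A s).tsum_add (summable_ind T B s)]
  refine tsum_congr fun j => ?_
  rw [Set.indicator_union_of_disjoint h]

theorem xA_fin (F : Set ℕ) (hF : F.Finite) : xA T F = T (fin0 F hF 1) := by
  apply ev_ext
  intro s
  lift F to Finset ℕ using hF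
  rw [T_fin0]
  change ∑' j, (F : Set ℕ).indicator (fun j => tj T j s) j = _
  rw [tsum_eq_sum (s := F)]
  · refine Finset.sum_congr rfl fun j hj => ?_
    rw [Set.indicator_of_mem (by simpa using hj), Pi.one_apply, one_mul]
  · intro j hj
    rw [Set.indicator_of_notMem (by simpa using hj)]

end

/-- No complemented copy of `c₀`. -/
theorem no_c0 : ¬ ∃ (T : ZeroAtInftyContinuousMap ℕ ℝ →L[ℝ] BM G)
    (P : BM G →L[ℝ] ZeroAtInftyContinuousMap ℕ ℝ), P.comp T = ContinuousLinearMap.id ℝ _ := by
  rintro ⟨T, P, h⟩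
  have hPT : ∀ x, P (T x) = x := fun x => by
    have := congrArg (fun L : ZeroAtInftyContinuousMap ℕ ℝ →L[ℝ] ZeroAtInftyContinuousMap ℕ ℝ =>
      L x) h
    exact this
  refine phillips (fun A n => P (xA T A) n) (‖P‖ * ‖T‖) ?_ ?_ ?_ ?_
  · intro A B hAB n
    rw [xA_add T hAB, map_add]
    rfl
  · intro A n
    refine (abs_c0_le _ n).trans ((P.le_opNorm _).trans ?_)
    exact mul_le_mul_of_nonneg_left (xA_norm T A) P.opNorm_nonneg
  · intro A
    exact c0_tendsto _
  · intro F hF n
    rw [xA_fin T F hF, hPT]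
    rfl

end Pool.Agent.Helper44.CW
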