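import Mathlib
import Pool.Agent.Helper44.CW.BM

/-!
# MP_dec21a: averaging over the Cantor group

`GG = (ℤ/2)^ℕ`, `mu` its Haar probability measure, `X = BM GG` the bounded measurable functions on
`GG`, `e : ℕ → GG` a dense sequence with `e (kap n g) → g`.
For `F : βℕ → X` continuous put `pn n F t = ∫ g, F (kap n g) (t + g)`. These functions of `t` are
equicontinuous in `n`; `pp F t` is their limit along an ultrafilter.
If `F k = (s ↦ f (rho k + s))` with `f` continuous on `GG` and `rho : βℕ → GG` the extension of `e`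
then `pp F = f`.
-/

set_option autoImplicit false

namespace Pool.Agent.Helper44.CW

open Set Filter Topology MeasureTheory

open scoped BoundedContinuousFunction

/-- the Cantor group -/
abbrev GG : Type := ℕ → Bool

instance : IsTopologicalAddGroup Bool := ⟨⟩

/-- the Haar probability measure -/
noncomputable def mu : Measure GG := Measure.addHaarMeasure ⊤

instance : IsProbabilityMeasure mu := by
  constructor
  have := Measure.addHaarMeasure_self (K₀ := (⊤ : TopologicalSpace.PositiveCompacts GG))
  simpa [mu] using this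

instance : mu.IsAddHaarMeasure := by
  unfold mu
  infer_instance

/-- the sequence of all elements of finite support -/
def e (k : ℕ) : GG := fun j => k.testBit j

/-- the index of the first `n` coordinates of `g` -/
def kap (n : ℕ) (g : GG) : ℕ := Nat.ofBits fun j : Fin n => g j

theorem e_kap_tendsto (g : GG) : Tendsto (fun n => e (kap n g)) atTop (𝓝 g) := by
  rw [tendsto_pi_nhds]
  intro j
  refine tendsto_const_nhds.congr' ?_
  filter_upwards [eventually_gt_atTop j] with n hn
  exact (Nat.testBit_ofBits_lt (fun j : Fin n => g j) j hn).symm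

theorem kap_meas (n : ℕ) : Measurable (kap n) := by
  have h1 : Measurable fun g : GG => fun j : Fin n => g j :=
    measurable_pi_lambda _ fun j => measurable_pi_apply _
  exact (Measurable.of_discrete (f := fun b : Fin n → Bool => Nat.ofBits b)).comp h1

/-- the extension of `e` to `βℕ` -/
noncomputable def rho : StoneCech ℕ → GG :=
  stoneCechExtend (continuous_of_discreteTopology : Continuous e)

theorem rho_cont : Continuous rho := continuous_stoneCechExtend _

theorem rho_unit (k : ℕ) : rho (stoneCechUnit k) = e k := by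
  have := stoneCechExtend_extends (continuous_of_discreteTopology : Continuous e)
  exact congrFun this k

theorem add_add_self (g t : GG) : g + (t + g) = t := by
  rw [add_comm t g, ← add_assoc]
  have : g + g = 0 := by
    funext j
    change xor (g j) (g j) = false
    simp
  rw [this, zero_add]

/-! ### The operator into `C(βℕ, X)` -/

/-- continuous functions as bounded measurable functions -/
noncomputable def inc (u : C(GG, ℝ)) : BM GG :=
  mkB u u.continuous.measurable ‖u‖ fun s => u.norm_coe_le_norm s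

theorem ev_inc (u : C(GG, ℝ)) (s : GG) : ev (inc u) s = u s := rfl

theorem inc_lip : LipschitzWith 1 inc := by
  refine LipschitzWith.of_dist_le_mul fun u v => ?_
  rw [NNReal.coe_one, one_mul, dist_eq_norm, dist_eq_norm]
  refine norm_le_of_ev (norm_nonneg _) fun s => ?_
  rw [ev_sub, ev_inc, ev_inc]
  exact (u - v).norm_coe_le_norm s

/-- `(a, s) ↦ f (a + s)` -/
def sm (f : C(GG, ℝ)) : C(GG × GG, ℝ) := ⟨fun p => f (p.1 + p.2), by fun_prop⟩

/-- `k ↦ (s ↦ f (rho k + s))` -/
noncomputable def tt (f : C(GG, ℝ)) : StoneCech ℕ →ᵇ BM GG :=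
  BoundedContinuousFunction.mkOfCompact
    ⟨fun k => inc ((sm f).curry (rho k)), by
      exact inc_lip.continuous.comp ((sm f).curry.continuous.comp rho_cont)⟩

theorem ev_tt (f : C(GG, ℝ)) (k : StoneCech ℕ) (s : GG) : ev (tt f k) s = f (rho k + s) := rfl

/-! ### The averages -/

/-- the averages -/
noncomputable def pn (n : ℕ) (F : StoneCech ℕ →ᵇ BM GG) (t : GG) : ℝ :=
  ∫ g, ev (F (stoneCechUnit (kap n g))) (t + g) ∂mu

theorem F_meas (n : ℕ) (F : StoneCech ℕ →ᵇ BM GG) (t : GG) :
    Measurable fun g => ev (F (stoneCechUnit (kap n g))) (t + g) := by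
  have h1 : Measurable fun p : ℕ × GG => ev (F (stoneCechUnit p.1)) p.2 :=
    measurable_from_prod_countable_right fun k =>
      (ev_meas (F (stoneCechUnit k)) : Measurable fun y => ev (F (stoneCechUnit k)) y)
  exact h1.comp ((kap_meas n).prodMk (measurable_const_add t))

theorem F_le (F : StoneCech ℕ →ᵇ BM GG) (k : StoneCech ℕ) (s : GG) : |ev (F k) s| ≤ ‖F‖ :=
  (abs_ev_le _ s).trans (F.norm_coe_le_norm k)

theorem F_int (n : ℕ) (F : StoneCech ℕ →ᵇ BM GG) (t : GG) :
    Integrable (fun g => ev (F (stoneCechUnit (kap n g))) (t + g)) mu :=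
  Integrable.of_bound (F_meas n F t).aestronglyMeasurable ‖F‖
    (Eventually.of_forall fun _ => F_le F _ _)

theorem pn_le (n : ℕ) (F : StoneCech ℕ →ᵇ BM GG) (t : GG) : |pn n F t| ≤ ‖F‖ := by
  have h := norm_integral_le_of_norm_le_const (μ := mu) (C := ‖F‖)
    (f := fun g => ev (F (stoneCechUnit (kap n g))) (t + g))
    (Eventually.of_forall fun _ => F_le F _ _)
  unfold pn
  simpa using h

theorem pn_add (n : ℕ) (F F' : StoneCech ℕ →ᵇ BM GG) (t : GG) :
    pn n (F + F') t = pn n F t + pn n F' t := by
  unfold pn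
  rw [← integral_add (F_int n F t) (F_int n F' t)]
  rfl

theorem pn_smul (n : ℕ) (c : ℝ) (F : StoneCech ℕ →ᵇ BM GG) (t : GG) :
    pn n (c • F) t = c * pn n F t := by
  unfold pn
  rw [← integral_const_mul]
  rfl

/-- translation is continuous in `L¹` -/
theorem trans_cont (y : BM GG) (t0 : GG) :
    Tendsto (fun t => ∫ g, |ev y (t + g) - ev y (t0 + g)| ∂mu) (𝓝 t0) (𝓝 0) := by
  have hyint : Integrable (ev y) mu :=
    Integrable.of_bound (ev_meas y).aestronglyMeasurable ‖y‖
      (Eventually.of_forall fun g => abs_ev_le y g)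
  rw [Metric.tendsto_nhds]
  intro ε hε
  obtain ⟨φ, hφ, hφi⟩ := hyint.exists_boundedContinuous_integral_sub_le (ε := ε / 4) (by linarith)
  have h1 : Tendsto (fun t => ∫ g, |φ (t + g) - φ (t0 + g)| ∂mu) (𝓝 t0)
      (𝓝 (∫ g, |φ (t0 + g) - φ (t0 + g)| ∂mu)) := by
    refine tendsto_integral_filter_of_dominated_convergence (fun _ => ‖φ‖ + ‖φ‖) ?_ ?_ ?_ ?_
    · refine Eventually.of_forall fun t => ?_
      apply Continuous.aestronglyMeasurable
      fun_prop
    · refine Eventually.of_forall fun t => Eventually.of_forall fun g => ?_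
      rw [Real.norm_eq_abs, abs_abs]
      refine (abs_sub _ _).trans (add_le_add ?_ ?_)
      · exact φ.norm_coe_le_norm _
      · exact φ.norm_coe_le_norm _
    · exact integrable_const _
    · refine Eventually.of_forall fun g => ?_
      have : Continuous fun t => |φ (t + g) - φ (t0 + g)| := by fun_prop
      exact this.tendsto t0
  simp only [sub_self, abs_zero, integral_zero] at h1
  have h2 := (Metric.tendsto_nhds.1 h1) (ε / 4) (by linarith)
  filter_upwards [h2] with t ht
  rw [Real.dist_eq, sub_zero] at ht ⊢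
  have hty : ∀ t, Integrable (fun g => ev y (t + g)) mu := fun t =>
    (measurePreserving_add_left mu t).integrable_comp_of_integrable hyint
  have htφ : ∀ t, Integrable (fun g => φ (t + g)) mu := fun t =>
    (measurePreserving_add_left mu t).integrable_comp_of_integrable hφi
  have hA : ∀ t, ∫ g, |ev y (t + g) - φ (t + g)| ∂mu ≤ ε / 4 := by
    intro t
    have h3 := integral_add_left_eq_self (μ := mu) (fun g => |ev y g - φ g|) t
    rw [h3]
    exact hφ
  have hnn : 0 ≤ ∫ g, |ev y (t + g) - ev y (t0 + g)| ∂mu :=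
    integral_nonneg fun g => abs_nonneg _
  have hnn' : 0 ≤ ∫ g, |φ (t + g) - φ (t0 + g)| ∂mu :=
    integral_nonneg fun g => abs_nonneg _
  rw [abs_of_nonneg hnn] 
  rw [abs_of_nonneg hnn'] at ht
  have h4 : ∫ g, |ev y (t + g) - ev y (t0 + g)| ∂mu ≤
      ∫ g, (|ev y (t + g) - φ (t + g)| + |φ (t + g) - φ (t0 + g)| +
        |ev y (t0 + g) - φ (t0 + g)|) ∂mu := by
    refine integral_mono ?_ ?_ ?_
    · exact ((hty t).sub (hty t0)).abs
    · exact ((((hty t).sub (htφ t)).abs).add (((htφ t).sub (htφ t0)).abs)).add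
        (((hty t0).sub (htφ t0)).abs)
    · intro g
      simp only
      have e1 : ev y (t + g) - ev y (t0 + g) = (ev y (t + g) - φ (t + g)) +
        (φ (t + g) - φ (t0 + g)) + -(ev y (t0 + g) - φ (t0 + g)) := by ring
      rw [e1]
      refine (abs_add_le _ _).trans ?_
      rw [abs_neg]
      exact add_le_add (abs_add_le _ _) le_rfl
  have h5 : ∫ g, (|ev y (t + g) - φ (t + g)| + |φ (t + g) - φ (t0 + g)| +
        |ev y (t0 + g) - φ (t0 + g)|) ∂mu = ∫ g, |ev y (t + g) - φ (t + g)| ∂mu +
        ∫ g, |φ (t + g) - φ (t0 + g)| ∂mu + ∫ g, |ev y (t0 + g) - φ (t0 + g)| ∂mu := by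
    rw [integral_add, integral_add]
    · exact ((hty t).sub (htφ t)).abs
    · exact ((htφ t).sub (htφ t0)).abs
    · exact (((hty t).sub (htφ t)).abs).add (((htφ t).sub (htφ t0)).abs)
    · exact ((hty t0).sub (htφ t0)).abs
  have h6 := hA t
  have h7 := hA t0
  linarith

/-- equicontinuity of the averages -/
theorem pn_equi (F : StoneCech ℕ →ᵇ BM GG) (t0 : GG) {ε : ℝ} (hε : 0 < ε) :
    ∀ᶠ t in 𝓝 t0, ∀ n, |pn n F t - pn n F t0| ≤ ε := by
  have hcomp : IsCompact (Set.range F) := isCompact_range F.continuous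
  obtain ⟨Y, -, hYfin, hY⟩ := hcomp.finite_cover_balls (e := ε / 4) (by linarith)
  have h1 : Tendsto (fun t => ∑ y ∈ hYfin.toFinset, ∫ g, |ev y (t + g) - ev y (t0 + g)| ∂mu) (𝓝 t0)
      (𝓝 0) := by
    have := tendsto_finsetSum (f := fun (y : BM GG) (t : GG) =>
      ∫ g, |ev y (t + g) - ev y (t0 + g)| ∂mu) (a := fun _ => (0 : ℝ)) hYfin.toFinset
      fun y _ => trans_cont y t0
    simpa using this
  filter_upwards [(Metric.tendsto_nhds.1 h1) (ε / 2) (by linarith)] with t ht n
  rw [Real.dist_eq, sub_zero] at ht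
  have hyint : ∀ (y : BM GG) t, Integrable (fun g => ev y (t + g)) mu := fun y t =>
    Integrable.of_bound ((ev_meas y).comp (measurable_const_add t)).aestronglyMeasurable ‖y‖
      (Eventually.of_forall fun g => abs_ev_le y _)
  have h2 : pn n F t - pn n F t0 = ∫ g, (ev (F (stoneCechUnit (kap n g))) (t + g) -
      ev (F (stoneCechUnit (kap n g))) (t0 + g)) ∂mu :=
    (integral_sub (F_int n F t) (F_int n F t0)).symm
  rw [h2]
  have h3 : |∫ g, (ev (F (stoneCechUnit (kap n g))) (t + g) -
      ev (F (stoneCechUnit (kap n g))) (t0 + g)) ∂mu| ≤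
      ∫ g, |ev (F (stoneCechUnit (kap n g))) (t + g) -
      ev (F (stoneCechUnit (kap n g))) (t0 + g)| ∂mu := abs_integral_le_integral_abs
  refine h3.trans ?_
  have h4 : ∫ g, |ev (F (stoneCechUnit (kap n g))) (t + g) -
      ev (F (stoneCechUnit (kap n g))) (t0 + g)| ∂mu ≤
      ∫ g, (ε / 2 + ∑ y ∈ hYfin.toFinset, |ev y (t + g) - ev y (t0 + g)|) ∂mu := by
    refine integral_mono ((F_int n F t).sub (F_int n F t0)).abs ?_ ?_
    · exact (integrable_const _).add (integrable_finsetSum _ fun y _ =>
        ((hyint y t).sub (hyint y t0)).abs)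
    · intro g
      simp only
      set k := stoneCechUnit (kap n g) with hk
      have h5 : F k ∈ Set.range F := ⟨k, rfl⟩
      obtain ⟨y, hyY, hy⟩ := Set.mem_iUnion₂.1 (hY h5)
      rw [Metric.mem_ball, dist_eq_norm] at hy
      have h6 : |ev (F k) (t + g) - ev y (t + g)| ≤ ε / 4 := by
        have := abs_ev_le (F k - y) (t + g)
        rw [ev_sub] at this
        linarith
      have h7 : |ev (F k) (t0 + g) - ev y (t0 + g)| ≤ ε / 4 := by
        have := abs_ev_le (F k - y) (t0 + g)
        rw [ev_sub] at this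
        linarith
      have h8 : |ev y (t + g) - ev y (t0 + g)| ≤
          ∑ y ∈ hYfin.toFinset, |ev y (t + g) - ev y (t0 + g)| :=
        Finset.single_le_sum (f := fun y : BM GG => |ev y (t + g) - ev y (t0 + g)|)
          (fun y _ => abs_nonneg _) (hYfin.mem_toFinset.2 hyY)
      have e1 : ev (F k) (t + g) - ev (F k) (t0 + g) = (ev (F k) (t + g) - ev y (t + g)) +
        (ev y (t + g) - ev y (t0 + g)) + -(ev (F k) (t0 + g) - ev y (t0 + g)) := by ring
      have h9 := (abs_add_le ((ev (F k) (t + g) - ev y (t + g)) +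
        (ev y (t + g) - ev y (t0 + g))) (-(ev (F k) (t0 + g) - ev y (t0 + g)))).trans
        (add_le_add (abs_add_le _ _) le_rfl)
      rw [← e1, abs_neg] at h9
      linarith
  refine h4.trans ?_
  have h11 : ∀ y ∈ hYfin.toFinset, Integrable (fun g => |ev y (t + g) - ev y (t0 + g)|) mu :=
    fun y _ => ((hyint y t).sub (hyint y t0)).abs
  rw [integral_add (integrable_const _) (integrable_finsetSum _ h11), integral_finsetSum _ h11]
  have h10 := (abs_lt.1 ht).2
  simp only [integral_const, probReal_univ, one_smul]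
  linarith

/-- the averages of the special functions converge -/
theorem pn_tt (f : C(GG, ℝ)) (t : GG) : Tendsto (fun n => pn n (tt f) t) atTop (𝓝 (f t)) := by
  have h1 : Tendsto (fun n => ∫ g, f (e (kap n g) + (t + g)) ∂mu) atTop
      (𝓝 (∫ g, f (g + (t + g)) ∂mu)) := by
    refine tendsto_integral_of_dominated_convergence (fun _ => ‖f‖) ?_ ?_ ?_ ?_
    · intro n
      have := (F_meas n (tt f) t).aestronglyMeasurable (μ := mu)
      simp only [ev_tt, rho_unit] at this
      exact this
    · exact integrable_const _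
    · intro n
      exact Eventually.of_forall fun g => f.norm_coe_le_norm _
    · refine Eventually.of_forall fun g => ?_
      have h2 : Tendsto (fun n => e (kap n g) + (t + g)) atTop (𝓝 (g + (t + g))) :=
        (e_kap_tendsto g).add tendsto_const_nhds
      exact (f.continuous.tendsto _).comp h2
  have h2 : ∫ g, f (g + (t + g)) ∂mu = f t := by
    simp only [add_add_self]
    simp
  rw [h2] at h1
  refine h1.congr fun n => ?_
  unfold pn
  simp only [ev_tt, rho_unit]

end Pool.Agent.Helper44.CW
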