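import Mathlib

/-!
# MP_dec21a: the interval `[0, ω ^ ω]` is a retract of the Cantor group
-/

set_option autoImplicit false

namespace Pool.Agent.Helper44.CW

open Set Filter Topology Ordinal

/-- the compact space `[0, ω ^ ω]` -/
abbrev KK : Type 1 := Set.Icc (0 : Ordinal.{0}) (Ordinal.omega0.{0} ^ Ordinal.omega0.{0})

theorem countable_Iio : Countable (Set.Iio (Ordinal.omega0.{0} ^ Ordinal.omega0.{0})) := by
  have h1 : (Ordinal.omega0.{0} ^ Ordinal.omega0.{0}).card ≤ Cardinal.aleph0 := by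
    refine (Ordinal.card_opow_le _ _).trans ?_
    simp
  have h2 : Cardinal.mk (Set.Iio (Ordinal.omega0.{0} ^ Ordinal.omega0.{0})) ≤ Cardinal.aleph0 := by
    rw [Cardinal.mk_Iio_ordinal]
    simpa using Cardinal.lift_le.{1}.2 h1
  exact Cardinal.mk_le_aleph0_iff.1 h2

theorem exists_enum : ∃ a : ℕ → Ordinal.{0},
    ∀ x : Ordinal.{0}, x < Ordinal.omega0.{0} ^ Ordinal.omega0.{0} → ∃ n, a n = x := by
  have := countable_Iio
  have : Nonempty (Set.Iio (Ordinal.omega0.{0} ^ Ordinal.omega0.{0})) :=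
    ⟨⟨0, Ordinal.opow_pos _ Ordinal.omega0_pos⟩⟩
  obtain ⟨f, hf⟩ := exists_surjective_nat (Set.Iio (Ordinal.omega0.{0} ^ Ordinal.omega0.{0}))
  refine ⟨fun n => (f n).1, fun x hx => ?_⟩
  obtain ⟨n, hn⟩ := hf ⟨x, hx⟩
  exact ⟨n, congrArg Subtype.val hn⟩

theorem clopen_Iic (a : Ordinal.{0}) : IsClopen (Set.Iic a) := by
  refine ⟨isClosed_Iic, ?_⟩
  rw [← Order.Iio_succ]
  exact isOpen_Iio

/-- `[0, ω ^ ω]` is a retract of the Cantor set -/
theorem exists_retraction : ∃ (i : KK → (ℕ → Bool)) (σ : (ℕ → Bool) → KK), Continuous i ∧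
    Continuous σ ∧ ∀ x, σ (i x) = x := by
  obtain ⟨a, ha⟩ := exists_enum
  set i : KK → (ℕ → Bool) := fun x n => decide ((x : Ordinal.{0}) ≤ a n) with hi
  have hic : Continuous i := by
    refine continuous_pi fun n => ?_
    have h1 : IsClopen {x : KK | (x : Ordinal.{0}) ≤ a n} :=
      (clopen_Iic (a n)).preimage continuous_subtype_val
    rw [continuous_bool_rng true]
    convert h1 using 1
    ext x
    simp [hi]
  have hinj : Function.Injective i := by
    have key : ∀ x y : KK, (x : Ordinal.{0}) < y → i x ≠ i y := by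
      intro x y hxy h
      obtain ⟨n, hn⟩ := ha x (lt_of_lt_of_le hxy y.2.2)
      have h1 := congrFun h n
      simp only [hi, hn, le_refl, decide_true] at h1
      have h2 := of_decide_eq_true h1.symm
      exact absurd h2 (not_le.2 hxy)
    intro x y h
    rcases lt_trichotomy (x : Ordinal.{0}) y with h1 | h1 | h1
    · exact absurd h (key x y h1)
    · exact Subtype.ext h1
    · exact absurd h.symm (key y x h1)
  have hcl : Topology.IsClosedEmbedding i := hic.isClosedEmbedding hinj
  have : Nonempty KK := ⟨⟨0, le_refl _, zero_le⟩⟩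
  obtain ⟨r, hr1, -, hr3⟩ := PiNat.exists_retraction_subtype_of_isClosed
    (E := fun _ : ℕ => Bool) hcl.isClosed_range (Set.range_nonempty i)
  let e : KK ≃ₜ Set.range i := hcl.isEmbedding.toHomeomorph
  refine ⟨i, fun z => e.symm (r z), hic, e.symm.continuous.comp hr3, fun x => ?_⟩
  have h1 : r (i x) = e x := by
    have := hr1 (e x)
    exact this
  simp only [h1, Homeomorph.symm_apply_apply]

end Pool.Agent.Helper44.CW
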