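import Mathlib
import Pool.Agent.Helper44.CW.Avg
import Pool.Agent.Helper44.CW.Emb

/-!
# MP_dec21a: `C(ω ^ ω)` is complemented in `C(βℕ, X)`, `X` the bounded measurable functions
-/

set_option autoImplicit false

namespace Pool.Agent.Helper44.CW

open Set Filter Topology MeasureTheory

open scoped BoundedContinuousFunction

/-- a free ultrafilter -/
noncomputable def UU : Ultrafilter ℕ := Filter.hyperfilter ℕ

/-- the limit of a bounded sequence along the ultrafilter -/
noncomputable def ulim (u : ℕ → ℝ) : ℝ := limUnder (UU : Filter ℕ) u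

theorem ulim_tendsto {u : ℕ → ℝ} {C : ℝ} (h : ∀ n, |u n| ≤ C) :
    Tendsto u (UU : Filter ℕ) (𝓝 (ulim u)) := by
  have h1 : ∃ x ∈ Set.Icc (-C) C, ((UU.map u : Ultrafilter ℝ) : Filter ℝ) ≤ 𝓝 x := by
    apply isCompact_Icc.ultrafilter_le_nhds
    rw [Filter.le_principal_iff]
    exact Filter.Eventually.of_forall (f := (UU : Filter ℕ)) fun n => abs_le.1 (h n)
  obtain ⟨x, -, hx⟩ := h1
  exact tendsto_nhds_limUnder ⟨x, hx⟩

theorem ulim_eq {u : ℕ → ℝ} {a : ℝ} (h : Tendsto u (UU : Filter ℕ) (𝓝 a)) : ulim u = a :=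
  h.limUnder_eq

theorem UU_le : (UU : Filter ℕ) ≤ atTop := by
  rw [← Nat.cofinite_eq_atTop]
  exact Filter.hyperfilter_le_cofinite

theorem abs_ulim_le {u : ℕ → ℝ} {C : ℝ} (h : ∀ n, |u n| ≤ C) : |ulim u| ≤ C :=
  le_of_tendsto (ulim_tendsto h).abs (Filter.Eventually.of_forall h)

/-- the limit of the averages -/
noncomputable def pp (F : StoneCech ℕ →ᵇ BM GG) (t : GG) : ℝ := ulim fun n => pn n F t

theorem pp_tendsto (F : StoneCech ℕ →ᵇ BM GG) (t : GG) :
    Tendsto (fun n => pn n F t) (UU : Filter ℕ) (𝓝 (pp F t)) :=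
  ulim_tendsto fun n => pn_le n F t

theorem abs_pp_le (F : StoneCech ℕ →ᵇ BM GG) (t : GG) : |pp F t| ≤ ‖F‖ :=
  abs_ulim_le fun n => pn_le n F t

theorem pp_cont (F : StoneCech ℕ →ᵇ BM GG) : Continuous (pp F) := by
  rw [continuous_iff_continuousAt]
  intro t0
  rw [ContinuousAt, Metric.tendsto_nhds]
  intro ε hε
  filter_upwards [pn_equi F t0 (ε := ε / 2) (by linarith)] with t ht
  rw [Real.dist_eq]
  have h1 : Tendsto (fun n => |pn n F t - pn n F t0|) (UU : Filter ℕ)
      (𝓝 |pp F t - pp F t0|) := ((pp_tendsto F t).sub (pp_tendsto F t0)).abs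
  have h2 := le_of_tendsto h1 (Filter.Eventually.of_forall ht)
  linarith

theorem pp_add (F F' : StoneCech ℕ →ᵇ BM GG) (t : GG) : pp (F + F') t = pp F t + pp F' t := by
  apply ulim_eq
  simp only [pn_add]
  exact (pp_tendsto F t).add (pp_tendsto F' t)

theorem pp_smul (c : ℝ) (F : StoneCech ℕ →ᵇ BM GG) (t : GG) : pp (c • F) t = c * pp F t := by
  apply ulim_eq
  simp only [pn_smul]
  exact (pp_tendsto F t).const_mul c

theorem pp_tt (f : C(GG, ℝ)) (t : GG) : pp (tt f) t = f t :=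
  ulim_eq ((pn_tt f t).mono_left UU_le)

/-- The projection. -/
noncomputable def PC (i : KK → GG) (hi : Continuous i) :
    (StoneCech ℕ →ᵇ BM GG) →L[ℝ] (KK →ᵇ ℝ) :=
  LinearMap.mkContinuous
    { toFun := fun F => BoundedContinuousFunction.mkOfCompact ⟨fun x => pp F (i x),
        (pp_cont F).comp hi⟩
      map_add' := fun F F' => by
        ext x
        exact pp_add F F' (i x)
      map_smul' := fun c F => by
        ext x
        exact pp_smul c F (i x) } 1 (fun F => by
      rw [one_mul]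
      exact (BoundedContinuousFunction.norm_le (norm_nonneg _)).2 fun x => abs_pp_le F (i x))

/-- The embedding. -/
noncomputable def TC (σ : GG → KK) (hσ : Continuous σ) :
    (KK →ᵇ ℝ) →L[ℝ] (StoneCech ℕ →ᵇ BM GG) :=
  LinearMap.mkContinuous
    { toFun := fun f => tt ⟨fun g => f (σ g), f.continuous.comp hσ⟩
      map_add' := fun f f' => by
        ext k s
        rfl
      map_smul' := fun c f => by
        ext k s
        rfl } 1 (fun f => by
      rw [one_mul]
      refine (BoundedContinuousFunction.norm_le (norm_nonneg _)).2 fun k => ?_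
      exact norm_le_of_ev (norm_nonneg _) fun s => f.norm_coe_le_norm _)

theorem exists_complemented : ∃ (T : (KK →ᵇ ℝ) →L[ℝ] (StoneCech ℕ →ᵇ BM GG))
    (P : (StoneCech ℕ →ᵇ BM GG) →L[ℝ] (KK →ᵇ ℝ)), P.comp T = ContinuousLinearMap.id ℝ _ := by
  obtain ⟨i, σ, hi, hσ, h⟩ := exists_retraction
  refine ⟨TC σ hσ, PC i hi, ?_⟩
  ext f x
  change pp (tt ⟨fun g => f (σ g), f.continuous.comp hσ⟩) (i x) = f x
  rw [pp_tt]
  change f (σ (i x)) = f x
  rw [h]

end Pool.Agent.Helper44.CW
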